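import Pool.Agent.W429.TCI.Stmts
set_option autoImplicit false

/-! TCI-ASM: the assembly. -/

namespace Pool.Agent.W978.TCI
open Pool.Agent.Helper805.Nuc.Tens Pool.Agent.Helper805.Nuc.Free Pool.Agent.W429.TCI

section
variable {A B Fn : Type} [NonUnitalNonAssocRing A] [NonUnitalNonAssocRing B] [FunLike Fn A B]
  [NonUnitalRingHomClass Fn A B] (f : Fn)

lemma map_br (a b : A) : f (br a b) = br (f a) (f b) := by
  unfold br
  rw [map_sub, map_mul, map_mul]

lemma map_jo (a b : A) : f (jo a b) = jo (f a) (f b) := by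
  unfold jo
  rw [map_add, map_mul, map_mul]

lemma map_as (a b c : A) : f (as a b c) = as (f a) (f b) (f c) := by
  unfold as
  rw [map_sub, map_mul, map_mul, map_mul, map_mul]

lemma map_nstar (x : Fin 5 → A) (y : A) : f (nstar x y) = nstar (fun i => f (x i)) (f y) := by
  unfold nstar Gp
  rw [map_sum]
  apply Finset.sum_congr rfl
  intro σ _
  rw [map_zsmul, map_jo, map_as, map_as]

end

theorem asm : S_ASM := by
  intro hL1 hL2 hL3 hC hW F _ h2 h3
  have halt : IsAlt (FreeAlt F ℕ) := FreeAlt.isAlt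
  have htor : ∀ b : FreeAlt F ℕ, b + b = 0 → b = 0 := by
    intro b hb
    have h : (2 : F)⁻¹ • ((2 : F) • b) = b := by rw [smul_smul, inv_mul_cancel₀ h2, one_smul]
    rw [← h, two_smul, hb, smul_zero]
  refine hL3 F (FreeAlt F ℕ) halt (hL1 F _ halt htor) (hL2 F _ h2 halt (hC F _ h2 h3 halt)) ?_
  intro hle
  obtain ⟨W, _, _, _, _, hWalt, x, y, a, u, v, hne⟩ := hW F h2 h3
  let f : ℕ → W := fun n => if h : n < 5 then x ⟨n, h⟩ else if n = 5 then y else if n = 6 then a
    else if n = 7 then u else v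
  let g : FreeAlt F ℕ →ₙₐ[F] W := FreeAlt.lift (Φ := F) hWalt f
  have hz : br (nstar (fun i : Fin 5 => (FreeAlt.gen (i : ℕ) : FreeAlt F ℕ)) (FreeAlt.gen 5))
      (FreeAlt.gen 6) ∈ PI F (FreeAlt F ℕ) := by
    unfold PI idealGen
    rw [Submodule.mem_sInf]
    intro I hI
    exact hI.2 ⟨_, _, _, rfl⟩
  have h1 := (hle hz (FreeAlt.gen 7) (FreeAlt.gen 8)).1
  have h4 := congrArg g h1
  rw [map_as, map_br, map_nstar, map_zero] at h4
  apply hne
  have e : ∀ n : ℕ, g (FreeAlt.gen n) = f n := fun n => FreeAlt.lift_gen hWalt f n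
  simp only [e] at h4
  have e5 : (fun i : Fin 5 => f (i : ℕ)) = x := by
    funext i
    show (if h : (i : ℕ) < 5 then x ⟨i, h⟩ else _) = _
    rw [dif_pos i.2]
  rw [e5] at h4
  exact h4

end Pool.Agent.W978.TCI
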